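import Pool.Agent.Q288.AP.Awc

/-!
# Alperin's weight conjecture for odd primes follows from an approximate form

`x` is the number of `p`-regular classes of `G` and `y` the number of `G`-orbits of `p`-weights. If,
for every `ε > 0`, these numbers agree for all finite groups up to a factor `C_ε |G|_p^ε`, then they
are equal for all finite groups; also each of the two inequalities follows from its approximate form.
Both numbers of `G ≀ C₂` are `(x² + 3x)/2` and `(y² + 3y)/2`, and along the iterated wreath products
a ratio `x / y > 1` grows faster than every small power of `|G|_p`.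
-/

set_option autoImplicit false

namespace Pool.Agent.Results.MP_78bba1_al.ApproximateEqualityDecides

open Pool.Agent.Y63.AWC (numWeights numRegularClasses)
open Pool.Agent.Q90.WR (Wr WrN)
open Pool.Agent.Q288.AP

/-- `x ≤ C_ε |G|_p^ε y` for all `ε > 0`, for all finite groups in the class `C`. -/
def ApproxLe (p : ℕ) (C : (G : Type) → Group G → Prop) (x y : (G : Type) → [Group G] → ℕ) : Prop :=
  ∀ ε : ℝ, 0 < ε → ∃ K : ℝ, ∀ (G : Type) [i : Group G] [Finite G], C G i →
    (x G : ℝ) ≤ K * (pPart p G : ℝ) ^ ε * y G

/-- Let `p` be an odd prime, `numRegularClasses p G` the number of classes of `p`-regular elements of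
`G`, that is, of simple `kG`-modules, and `numWeights p G` the number of `G`-orbits of `p`-weights.
(1) For every class `C` of finite groups closed under `G ↦ G ≀ C₂` (for instance all finite groups)
there are at least as many weights as `p`-regular classes for all `G` in `C` if and only if this
holds approximately, and the same for the reverse inequality.
(2) For a finite group `G` there are at least as many weights as `p`-regular classes if
this holds approximately for the iterated wreath products `WrN j G` of `G` with `C₂`, and the same for
the reverse inequality. -/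
theorem result (p : ℕ) [Fact p.Prime] (hp2 : p ≠ 2) :
    (∀ C : (G : Type) → Group G → Prop,
      (∀ (G : Type) [i : Group G] [Finite G], C G i → C (Wr G) inferInstance) →
      ((∀ (G : Type) [i : Group G] [Finite G], C G i → numRegularClasses p G ≤ numWeights p G) ↔
        ApproxLe p C (numRegularClasses p) (numWeights p)) ∧
      ((∀ (G : Type) [i : Group G] [Finite G], C G i → numWeights p G ≤ numRegularClasses p G) ↔
        ApproxLe p C (numWeights p) (numRegularClasses p)) ∧
      ((∀ (G : Type) [i : Group G] [Finite G], C G i → numRegularClasses p G = numWeights p G) ↔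
        ApproxLe p C (numRegularClasses p) (numWeights p) ∧
        ApproxLe p C (numWeights p) (numRegularClasses p))) ∧
    (∀ (G : Type) [Group G] [Finite G],
      ((∀ ε : ℝ, 0 < ε → ∃ K : ℝ, ∀ j : ℕ, (numRegularClasses p (WrN j G) : ℝ) ≤
          K * (pPart p (WrN j G) : ℝ) ^ ε * numWeights p (WrN j G)) →
        numRegularClasses p G ≤ numWeights p G) ∧
      ((∀ ε : ℝ, 0 < ε → ∃ K : ℝ, ∀ j : ℕ, (numWeights p (WrN j G) : ℝ) ≤
          K * (pPart p (WrN j G) : ℝ) ^ ε * numRegularClasses p (WrN j G)) →
        numWeights p G ≤ numRegularClasses p G)) := by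
  have h1 : ∀ C : (G : Type) → Group G → Prop,
      (∀ (G : Type) [i : Group G] [Finite G], C G i → C (Wr G) inferInstance) →
      ((∀ (G : Type) [i : Group G] [Finite G], C G i → numRegularClasses p G ≤ numWeights p G) ↔
        ApproxLe p C (numRegularClasses p) (numWeights p)) := by
    intro C hC
    constructor
    · intro h ε hε
      exact ⟨1, fun G _ _ hG => self_le hε G (h G hG)⟩
    · intro h G _ _ hG
      apply le_one hp2 G
      intro ε hε
      obtain ⟨K, hK⟩ := h ε hε
      exact ⟨K, fun j => hK (WrN j G) (closed_WrN C hC j G hG)⟩
  have h2 : ∀ C : (G : Type) → Group G → Prop,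
      (∀ (G : Type) [i : Group G] [Finite G], C G i → C (Wr G) inferInstance) →
      ((∀ (G : Type) [i : Group G] [Finite G], C G i → numWeights p G ≤ numRegularClasses p G) ↔
        ApproxLe p C (numWeights p) (numRegularClasses p)) := by
    intro C hC
    constructor
    · intro h ε hε
      exact ⟨1, fun G _ _ hG => self_le hε G (h G hG)⟩
    · intro h G _ _ hG
      apply le_two hp2 G
      intro ε hε
      obtain ⟨K, hK⟩ := h ε hε
      exact ⟨K, fun j => hK (WrN j G) (closed_WrN C hC j G hG)⟩
  refine ⟨fun C hC => ⟨h1 C hC, h2 C hC, ?_⟩, fun G _ _ => ⟨le_one hp2 G, le_two hp2 G⟩⟩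
  rw [← h1 C hC, ← h2 C hC]
  exact ⟨fun h => ⟨fun G _ _ hG => (h G hG).le, fun G _ _ hG => (h G hG).ge⟩,
    fun h G _ _ hG => le_antisymm (h.1 G hG) (h.2 G hG)⟩

end Pool.Agent.Results.MP_78bba1_al.ApproximateEqualityDecides
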