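import Pool.Agent.Q100.EW.Fix

/-!
# Alperin's weight conjecture and the action of a cyclic group of order prime to `p`

Let `G` be normal in `E` with `E / G` cyclic of order prime to `p`.  Alperin's conjecture holds for all
groups `M` between `G` and `E` if and only if there is an `E`-equivariant bijection between the `p`-regular
classes of `G` and the `G`-classes of the `p`-weights of `G`.

Both sides of the conjecture for `M` are counted by pairs: `|G| |M|` times the number of `p`-regular classes (of weights) of `M` is the sum over `(x, y) ∈ M × M` of the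
number of `p`-regular classes (classes of weights) of `G` that are fixed by `x` and `y`.
-/

set_option autoImplicit false

namespace Pool.Agent.Results.MP_78bba1_al.EquivariantForCyclicQuotients

open Pool.Agent.Y63.AWC (numRegularClasses numWeights numRegularClasses_congr numWeights_congr)
open Pool.Agent.Q100.EW

/-- for a fixed pair -/
theorem tfae {p : ℕ} [Fact p.Prime] {E : Type} [Group E] [Finite E] (G : Subgroup E) [G.Normal]
    (hc : IsCyclic (E ⧸ G)) (hpG : ¬ p ∣ G.index) :
    List.TFAE [
      ∀ M : Subgroup E, G ≤ M → numRegularClasses p M = numWeights p M,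
      EquivariantBijection G (RegEl p G) (Weight p G),
      ∀ e : E, fixedOrbits G (RegEl p G) e = fixedOrbits G (Weight p G) e] := by
  have hmain := pairs_iff (Ω := RegEl p G) (Ω' := Weight p G) hc
  tfae_have 1 ↔ 3 := by
    rw [← hmain]
    constructor
    · intro h M hGM
      rw [reg_main hc hpG hGM, wt_main hc hpG hGM, h M hGM]
    · intro h M hGM
      have h1 := h M hGM
      rw [reg_main hc hpG hGM, wt_main hc hpG hGM] at h1
      exact Nat.eq_of_mul_eq_mul_left Nat.card_pos (Nat.eq_of_mul_eq_mul_left Nat.card_pos h1)
  tfae_have 3 → 2 := bij_of_fixed hc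
  tfae_have 2 → 3 := fixed_of_bij
  tfae_finish

/-- **Equivariant form.** Let `p` be a prime. (A) For a normal subgroup `G` of a finite group `E` with
`E / G` cyclic of order prime to `p` the following are equivalent: (1) for all groups `M` with
`G ≤ M ≤ E` the number of `p`-regular classes of `M` is the number of classes of `p`-weights of `M`;
(2) there is a bijection from the `p`-regular classes of `G` onto the `G`-classes of `p`-weights of `G`
that commutes with the action of `E`; (3) every element of `E` fixes as many `p`-regular classes of `G`
as `G`-classes of `p`-weights of `G`. (B) The two numbers are equal for all finite groups if and only if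
(2) holds for all such `E`, `G`. -/
theorem result {p : ℕ} [Fact p.Prime] :
    (∀ {E : Type} [Group E] [Finite E] (G : Subgroup E) [G.Normal], IsCyclic (E ⧸ G) →
      ¬ p ∣ G.index →
      List.TFAE [
        ∀ M : Subgroup E, G ≤ M → numRegularClasses p M = numWeights p M,
        EquivariantBijection G (RegEl p G) (Weight p G),
        ∀ e : E, fixedOrbits G (RegEl p G) e = fixedOrbits G (Weight p G) e]) ∧
    ((∀ (H : Type) [Group H] [Finite H], numRegularClasses p H = numWeights p H) ↔
      ∀ (E : Type) [Group E] [Finite E] (G : Subgroup E) [G.Normal], IsCyclic (E ⧸ G) →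
        ¬ p ∣ G.index → EquivariantBijection G (RegEl p G) (Weight p G)) := by
  refine ⟨fun G _ hc hpG => tfae G hc hpG, ?_⟩
  constructor
  · intro h E _ _ G _ hc hpG
    have h1 := (tfae (p := p) G hc hpG).out 0 1
    refine h1.mp ?_
    intro M _
    exact h M
  · intro h H _ _
    have hi : (⊤ : Subgroup H).index = 1 := Subgroup.index_top
    have hsub : Subsingleton (H ⧸ (⊤ : Subgroup H)) := by
      have h1 : Nat.card (H ⧸ (⊤ : Subgroup H)) = 1 := hi
      exact (Nat.card_eq_one_iff_unique.mp h1).1
    have hc : IsCyclic (H ⧸ (⊤ : Subgroup H)) := isCyclic_of_subsingleton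
    have hp1 : ¬ p ∣ (⊤ : Subgroup H).index := by
      rw [hi]
      exact (Fact.out : p.Prime).one_lt.not_ge ∘ Nat.le_of_dvd one_pos
    have h1 := ((tfae (p := p) (⊤ : Subgroup H) hc hp1).out 0 1).mpr (h H ⊤ hc hp1)
    have h2 := h1 ⊤ le_rfl
    rw [← numRegularClasses_congr (Subgroup.topEquiv : (⊤ : Subgroup H) ≃* H),
      ← numWeights_congr (Subgroup.topEquiv : (⊤ : Subgroup H) ≃* H)]
    exact h2

end Pool.Agent.Results.MP_78bba1_al.EquivariantForCyclicQuotients
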