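import Pool.Agent.Q149.WB.Red
import Pool.Agent.Q149.DB.Nav3

/-!
# The blockwise Alperin weight conjecture for odd primes: parities of real blocks, or size, decide

Let `p` be an odd prime. For a block `B` of a finite group `G` let `l(B)` be the number of simple
modules and `w(B)` the number of `G`-classes of weights of `B`. If for every REAL block `B` of every
finite group without normal subgroups of index `p` and without non-trivial normal `p`-subgroups the
number of the self-dual simple modules in `B` and the number of the classes of real weights of `B` have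
the same parity, then `l(B) = w(B)` for all blocks of all finite groups, real or not. Also each of the
inequalities `l(B) ≤ w(B)` and `w(B) ≤ l(B)` follows from its approximate form, with a factor
`K |G|_p ^ ε`.

Proof. For `z` in the centre of `F[G]` let `l(z)` be the number of the simple modules on which `z` does
not act as zero, and `w(z)` the number of the classes of weights whose blocks do not vanish at `z`. For
the element `z ⊗ z` of the centre of `F[G ≀ C₂]` (supported on the base group) both numbers satisfy
the recursion `2 l(z ⊗ z) = l(z)² + 3 l(z)`, `2 w(z ⊗ z) = w(z)² + 3 w(z)`. If `z` is invariant under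
`g ↦ g⁻¹`, duality shows that `l(z)` and `w(z)` are congruent modulo 2 to the numbers of self-dual
modules and of real weights; these lie in real blocks. So if the parities agree for the real blocks of
all iterated wreath products, then `l(z) - w(z)` is divisible by all powers of 2. For every block `B`
there is such a `z` for which `l(z)` and `w(z)` are `l(B)` and `w(B)` or `2 l(B)` and `2 w(B)`.
-/

set_option autoImplicit false

namespace Pool.Agent.Results.MP_78bba1_al.RealBlocksDecide

open Pool.Agent.Y63.NV (IsBlock numIrrBlock numWtBlock BAWC Reduced bawc_strong Closed pgroup_top)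
open Pool.Agent.Y63.AWC (pSubgroupSetoid)
open Pool.Agent.Q90.WR (Wr WrN instGroupWrN)
open Pool.Agent.Q149.WB (pp')
open Pool.Agent.Y63.NV.B48B (rs)
open Pool.Agent.Y63.NV (IsIrrTrace IsClassFun IsWt centralValue)
open Pool.Agent.Q149.DB (RealBlock lb wgb LR WR)

/-- `w(B)`: the number of `G`-classes of weights of the block `B` of `G`; the sum is over
representatives of the classes of `p`-subgroups `Q`. -/
noncomputable def numWeightsBlock (p : ℕ) {F : Type} [Field F] (red : integralClosure ℤ ℂ →+* F)
    {G : Type} [Group G] (B : (G → F) → F) : ℕ :=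
  ∑ᶠ c : Quotient (pSubgroupSetoid p G), numWtBlock p red c.out.1 B

/-- The `p`-part of the order of `G`. -/
noncomputable def pPart (p : ℕ) (G : Type) : ℕ := p ^ (Nat.card G).factorization p

/-- The number of the self-dual simple `F[G]`-modules in the block `B`. -/
noncomputable def realSimples {F : Type} [Field F] {G : Type} [Group G] (B : (G → F) → F) : ℕ :=
  Nat.card {φ : G → F // IsIrrTrace φ ∧ (∀ g, φ g⁻¹ = φ g) ∧
    ∀ f : G → F, IsClassFun f → ∀ x : G, ∑ᶠ g : G, f g * φ (g * x) = B f * φ x}

/-- The number of the real-valued irreducible characters of `N_G(Q)/Q` of `p`-defect zero which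
induce to the block `B`. -/
noncomputable def realWeights1 (p : ℕ) {F : Type} [Field F] (red : integralClosure ℤ ℂ →+* F)
    {G : Type} [Group G] (Q : Subgroup G) (B : (G → F) → F) : ℕ :=
  Nat.card {χ : Subgroup.normalizer (Q : Set G) → ℂ //
    IsWt p (Q.subgroupOf (Subgroup.normalizer (Q : Set G))) χ ∧ (∀ g, (χ g).im = 0) ∧
    ∀ f : G → F, IsClassFun f → centralValue red χ (fun x => f x) = B f}

/-- The number of the classes of real weights of the block `B`. -/
noncomputable def realWeights (p : ℕ) {F : Type} [Field F] (red : integralClosure ℤ ℂ →+* F)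
    {G : Type} [Group G] (B : (G → F) → F) : ℕ :=
  ∑ᶠ c : Quotient (pSubgroupSetoid p G), realWeights1 p red c.out.1 B

/-- For all real blocks of `G` the numbers of self-dual simple modules and of real weights have the
same parity. -/
def RealParity (p : ℕ) {F : Type} [Field F] (red : integralClosure ℤ ℂ →+* F) (G : Type) [Group G] :
    Prop :=
  ∀ B : (G → F) → F, IsBlock B → RealBlock B → realSimples B ≡ realWeights p red B [MOD 2]

/-- For every `ε > 0` there is a `K` such that `x ≤ K |G|_p ^ ε y` for all blocks of all groups in the
class `C`, where `x` and `y` are numbers attached to blocks. -/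
def ApproxLe (p : ℕ) (F : Type) [Field F] (C : (G : Type) → Group G → Prop)
    (x y : (G : Type) → [Group G] → ((G → F) → F) → ℕ) : Prop :=
  ∀ ε : ℝ, 0 < ε → ∃ K : ℝ, ∀ (G : Type) [i : Group G] [Finite G], C G i →
    ∀ B : (G → F) → F, IsBlock B → (x G B : ℝ) ≤ K * (pPart p G : ℝ) ^ ε * y G B

section bridge

variable {p : ℕ} {F : Type} [Field F] (red : integralClosure ℤ ℂ →+* F)

theorem simples_eq {H : Type} [Group H] (B : (H → F) → F) : realSimples B = lb LR (rs B) :=
  Nat.card_congr (Equiv.subtypeEquivRight fun φ => and_congr_right fun _ => and_congr_right fun _ =>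
    ⟨fun h f x => h f.1 f.2 x, fun h f hf x => h ⟨f, hf⟩ x⟩)

theorem weights_eq {H : Type} [Group H] (B : (H → F) → F) :
    realWeights p red B = wgb red p WR (rs B) :=
  finsum_congr fun c => Nat.card_congr (Equiv.subtypeEquivRight fun χ =>
    and_congr_right fun _ => and_congr_right fun _ =>
      ⟨fun h => funext fun f => h f.1 f.2, fun h f hf => congrFun h ⟨f, hf⟩⟩)

theorem parity_iff {H : Type} [Group H] : RealParity p red H ↔
    ∀ B : (H → F) → F, IsBlock B → RealBlock B → lb LR (rs B) ≡ wgb red p WR (rs B) [MOD 2] := by
  unfold RealParity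
  refine forall_congr' fun B => ?_
  rw [simples_eq, weights_eq]

end bridge

/-- **The blockwise weight conjecture for odd primes: parities of real blocks, or size, decide.** Let
`p` be an odd prime.
(1) `l(B) = w(B)` for all blocks `B` of all finite groups if and only if for all real blocks of all
finite groups without normal subgroups of index `p` and without non-trivial normal `p`-subgroups the
numbers of self-dual simple modules and of classes of real weights have the same parity.
(2) For every class `C` of finite groups closed under `G ↦ G ≀ C₂`: `l(B) = w(B)` for all blocks of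
the groups in `C` if and only if these parities agree for all real blocks of the groups in `C`; and
`l(B) ≤ w(B)`, or `w(B) ≤ l(B)`, for all blocks if and only if this holds approximately.
(3) For one group `G`: `l(B) = w(B)` for all blocks of `G` if the parities agree for all real blocks
of the iterated wreath products `WrN j G` of `G` with `C₂`, `2 ^ j ≤ |G| s` with the number `s` of
`p`-subgroups of `G`. -/
theorem result (p : ℕ) [Fact p.Prime] (hp2 : p ≠ 2) (F : Type) [Field F] [IsAlgClosed F]
    [CharP F p] (red : integralClosure ℤ ℂ →+* F) :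
    ((∀ (G : Type) [Group G] [Finite G], BAWC p red G) ↔
      ∀ (G : Type) [Group G] [Finite G], Reduced p G → RealParity p red G) ∧
    (∀ C : (G : Type) → Group G → Prop,
      (∀ (G : Type) [i : Group G] [Finite G], C G i → C (Wr G) inferInstance) →
      ((∀ (G : Type) [i : Group G] [Finite G], C G i → BAWC p red G) ↔
        ∀ (G : Type) [i : Group G] [Finite G], C G i → RealParity p red G) ∧
      ((∀ (G : Type) [i : Group G] [Finite G], C G i → ∀ B : (G → F) → F, IsBlock B →
          numIrrBlock B ≤ numWeightsBlock p red B) ↔
        ApproxLe p F C (fun _ _ B => numIrrBlock B) (fun _ _ B => numWeightsBlock p red B)) ∧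
      ((∀ (G : Type) [i : Group G] [Finite G], C G i → ∀ B : (G → F) → F, IsBlock B →
          numWeightsBlock p red B ≤ numIrrBlock B) ↔
        ApproxLe p F C (fun _ _ B => numWeightsBlock p red B) (fun _ _ B => numIrrBlock B))) ∧
    (∀ (G : Type) [Group G] [Finite G],
      (∀ j : ℕ, 2 ^ j ≤ Nat.card G * Nat.card {Q : Subgroup G // IsPGroup p Q} →
        RealParity p red (WrN j G)) → BAWC p red G) := by
  have hpar : ∀ C : (G : Type) → Group G → Prop,
      (∀ (G : Type) [i : Group G] [Finite G], C G i → C (Wr G) inferInstance) →
      ((∀ (G : Type) [i : Group G] [Finite G], C G i → BAWC p red G) ↔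
        ∀ (G : Type) [i : Group G] [Finite G], C G i → RealParity p red G) := by
    intro C hC
    constructor
    · intro h G _ _ hG
      rw [parity_iff]
      exact fun B hB hr => Pool.Agent.Q149.DB.real_of_bawc red (h G hG) hB hr
    · intro h G _ _ hG
      exact Pool.Agent.Q149.DB.bawc_of_real red hp2 G fun j _ =>
        (parity_iff red).1 (h (WrN j G) (Pool.Agent.Q149.WB.closed_WrN C hC j G hG))
  refine ⟨?_, fun C hC => ⟨hpar C hC, ?_, ?_⟩, fun G _ _ h =>
    Pool.Agent.Q149.DB.bawc_of_real red hp2 G fun j hj => (parity_iff red).1 (h j hj)⟩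
  · constructor
    · intro h G _ _ _
      rw [parity_iff]
      exact fun B hB hr => Pool.Agent.Q149.DB.real_of_bawc red (h G) hB hr
    · intro h
      have hX : Closed p (fun (H : Type) (_ : Group H) => True) :=
        ⟨fun _ _ _ _ _ _ => trivial, fun _ _ _ _ => trivial, fun _ _ _ _ _ _ => trivial⟩
      have h1 := (hpar (fun G i => Finite G ∧ @Reduced p G i) (fun G _ _ hG =>
        ⟨inferInstance, Pool.Agent.Q149.WB.reduced_wr hp2 hG.2⟩)).2 (fun G _ _ hG => h G hG.2)
      intro G _ _
      exact (bawc_strong red (fun _ _ => True) hX).1 (fun H _ _ _ hR => h1 H ⟨inferInstance, hR⟩)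
        G ⊤ trivial (pgroup_top p G)
  · constructor
    · intro h ε hε
      exact ⟨1, fun G _ _ hG B hB => Pool.Agent.Q149.WB.self_le G hε (h G hG B hB)⟩
    · intro h G _ _ hG B hB
      refine Pool.Agent.Q149.WB.irr_le_one red hp2 G (fun ε hε => ?_) B hB
      obtain ⟨K, hK⟩ := h ε hε
      exact ⟨K, fun j B hB => hK (WrN j G) (Pool.Agent.Q149.WB.closed_WrN C hC j G hG) B hB⟩
  · constructor
    · intro h ε hε
      exact ⟨1, fun G _ _ hG B hB => Pool.Agent.Q149.WB.self_le G hε (h G hG B hB)⟩
    · intro h G _ _ hG B hB
      refine Pool.Agent.Q149.WB.wts_le_one red hp2 G (fun ε hε => ?_) B hB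
      obtain ⟨K, hK⟩ := h ε hε
      exact ⟨K, fun j B hB => hK (WrN j G) (Pool.Agent.Q149.WB.closed_WrN C hC j G hG) B hB⟩

end Pool.Agent.Results.MP_78bba1_al.RealBlocksDecide
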